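import Pool.Agent.Lib.MP_2696ff_co.Cog

/-!
# MP_2696ff_co, Q1 for graphs without a fractional perfect matching

If `G` has `n ≥ 3` vertices and a set `I` of vertices has fewer than `|I|` neighbours, and `H` is any
graph on `n` vertices with the same polynomial deck, then `G` and `H` have the same characteristic
polynomial.
-/

set_option autoImplicit false

namespace Pool.Agent.Results.MP_2696ff_co.NoFractionalMatching

open Pool.Agent.MP2696 Polynomial

section

variable {V : Type*} [Fintype V] [DecidableEq V]

/-- Hall violator. -/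
private theorem det_eq_zero (A : Matrix V V ℤ) (I N : Finset V)
    (h : ∀ i ∈ I, ∀ j, j ∉ N → A i j = 0) (hc : N.card < I.card) : A.det = 0 := by
  rw [← Matrix.det_transpose, Matrix.det_apply]
  refine Finset.sum_eq_zero fun σ _ => ?_
  obtain ⟨i, hi, hi'⟩ : ∃ i ∈ I, σ i ∉ N := by
    by_contra hcon
    push Not at hcon
    have h1 : (I.map σ.toEmbedding) ⊆ N := by
      intro j hj
      rw [Finset.mem_map] at hj
      obtain ⟨i, hi, rfl⟩ := hj
      exact hcon i hi
    have h2 := Finset.card_le_card h1
    rw [Finset.card_map] at h2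
    omega
  rw [Finset.prod_eq_zero (Finset.mem_univ i), smul_zero]
  exact h i hi _ hi'

private theorem root_zero (A : Matrix V V ℤ) (I N : Finset V)
    (h : ∀ i ∈ I, ∀ j, j ∉ N → A i j = 0) (hc : N.card < I.card) :
    A.charpoly.eval 0 = 0 := by
  rw [Matrix.eval_charpoly]
  refine det_eq_zero _ I N (fun i hi j hj => ?_) hc
  simp [h i hi j hj]

private theorem card_sub (I : Finset V) (v : V) :
    (I.subtype (fun j => j ≠ v)).card = (I.erase v).card := by
  rw [Finset.card_subtype]
  congr 1
  ext j
  simp [and_comm]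

private theorem hall_core (A B : Matrix V V ℤ) (hA : Adj A) (hB : Adj B)
    (hn : 3 ≤ Fintype.card V) (h : ∀ v, (del A v).charpoly = (del B v).charpoly)
    (I N : Finset V) (hI : ∀ i ∈ I, ∀ j, j ∉ N → A i j = 0) (hc : N.card < I.card) :
    A.charpoly = B.charpoly := by
  have hrow := row_sums A B hA hB hn h
  obtain ⟨γ, hγ⟩ : ∃ γ : ℤ, A.charpoly - B.charpoly = C γ := by
    have : derivative (A.charpoly - B.charpoly) = 0 := by
      rw [derivative_sub, derivative_charpoly, derivative_charpoly, sub_eq_zero]
      exact Finset.sum_congr rfl fun i _ => h i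
    exact ⟨_, eq_C_of_derivative_eq_zero this⟩
  have hdone : A.charpoly.eval 0 = 0 → B.charpoly.eval 0 = 0 →
      A.charpoly = B.charpoly := by
    intro hx hx'
    have h1 := congrArg (eval 0) hγ
    rw [eval_sub, hx, hx', sub_zero, eval_C] at h1
    rw [← h1, C_0, sub_eq_zero] at hγ
    exact hγ
  -- an independent violator
  have hI' : ∀ i ∈ I \ N, ∀ j, j ∉ N \ I → A i j = 0 := by
    intro i hi j hj
    rw [Finset.mem_sdiff] at hi hj
    by_cases hjN : j ∈ N
    · have hjI : j ∈ I := by
        by_contra hjI
        exact hj ⟨hjN, hjI⟩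
      rw [hA.symm]
      exact hI j hjI i hi.2
    · exact hI i hi.1 j hjN
  have hc' : (N \ I).card < (I \ N).card := by
    have h1 := Finset.card_sdiff_add_card_inter I N
    have h2 := Finset.card_sdiff_add_card_inter N I
    rw [Finset.inter_comm] at h2
    omega
  rcases (N \ I).eq_empty_or_nonempty with hN | ⟨v, hv⟩
  · -- an isolated vertex
    have hpos : 0 < (I \ N).card := by omega
    obtain ⟨i, hi⟩ := Finset.card_pos.1 hpos
    have hAi : ∀ j, A i j = 0 := fun j => hI' i hi j (by rw [hN]; simp)
    have hBi : ∀ j, B i j = 0 := by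
      have h1 : ∑ j, B i j = 0 := by
        rw [← hrow i]
        exact Finset.sum_eq_zero fun j _ => hAi j
      have h2 : ∀ j, 0 ≤ B i j := fun j => by
        rcases hB.zo i j with h | h <;> rw [h]
        norm_num
      intro j
      exact (Finset.sum_eq_zero_iff_of_nonneg (fun w _ => h2 w)).1 h1 j (Finset.mem_univ j)
    refine hdone ?_ ?_
    · exact root_zero A {i} ∅ (fun k hk j _ => by rw [Finset.mem_singleton.1 hk]; exact hAi j)
        (by simp)
    · exact root_zero B {i} ∅ (fun k hk j _ => by rw [Finset.mem_singleton.1 hk]; exact hBi j)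
        (by simp)
  · -- a card in which zero is a double eigenvalue
    rw [Finset.mem_sdiff] at hv
    set I1 := I \ N with hI1
    set N1 := N \ I with hN1
    have hvN : v ∈ N1 := by rw [hN1, Finset.mem_sdiff]; exact hv
    have hvI : v ∉ I1 := by rw [hI1, Finset.mem_sdiff]; exact fun h => hv.2 h.1
    have e1 : (I1.subtype (fun j => j ≠ v)).card = I1.card := by
      rw [card_sub, Finset.erase_eq_of_notMem hvI]
    have e2 : (N1.subtype (fun j => j ≠ v)).card = N1.card - 1 := by
      rw [card_sub, Finset.card_erase_of_mem hvN]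
    have hpos : 0 < N1.card := Finset.card_pos.2 ⟨v, hvN⟩
    have hI2 : ∀ i ∈ I1.subtype (fun j => j ≠ v), ∀ j, j ∉ N1.subtype (fun j => j ≠ v) →
        (del A v) i j = 0 := by
      intro i hi j hj
      rw [Finset.mem_subtype] at hi hj
      exact hI' i hi j hj
    have r1 : (del A v).charpoly.eval 0 = 0 :=
      root_zero _ _ _ hI2 (by omega)
    have hder : (derivative (del A v).charpoly).eval 0 = 0 := by
      rw [derivative_charpoly, eval_finsetSum]
      refine Finset.sum_eq_zero fun w _ => ?_
      refine root_zero _ ((I1.subtype (fun j => j ≠ v)).subtype (fun j => j ≠ w))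
        ((N1.subtype (fun j => j ≠ v)).subtype (fun j => j ≠ w)) ?_ ?_
      · intro i hi j hj
        rw [Finset.mem_subtype] at hi hj
        exact hI2 i hi j hj
      · rw [card_sub, card_sub]
        have h1 := Finset.pred_card_le_card_erase (s := I1.subtype (fun j => j ≠ v)) (a := w)
        have h2 := Finset.card_erase_le (s := N1.subtype (fun j => j ≠ v)) (a := w)
        omega
    refine hdone ((adj_sq_nonneg A hA v 0 r1).2 hder) ?_
    refine (adj_sq_nonneg B hB v 0 ?_).2 ?_
    · rw [← h]; exact r1
    · rw [← h]; exact hder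

end

private theorem relabel {n : ℕ} (A B : Matrix (Fin n) (Fin n) ℤ)
    (h : (Finset.univ : Finset (Fin n)).val.map (fun v => (del A v).charpoly) =
      (Finset.univ : Finset (Fin n)).val.map (fun v => (del B v).charpoly)) :
    ∃ σ : Fin n ≃ Fin n, (∀ v, (del A v).charpoly = (del (B.submatrix σ σ) v).charpoly) ∧
      (B.submatrix σ σ).charpoly = B.charpoly := by
  classical
  obtain ⟨σ, hσ⟩ : ∃ σ : Fin n ≃ Fin n, ∀ v, (del B (σ v)).charpoly = (del A v).charpoly := by
    have hcount : ∀ c : ℤ[X], Fintype.card {a : Fin n // (del A a).charpoly = c} =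
        Fintype.card {b : Fin n // (del B b).charpoly = c} := by
      intro c
      have h1 := congrArg (Multiset.count c) h
      rw [Multiset.count_map, Multiset.count_map] at h1
      rw [Fintype.card_subtype, Fintype.card_subtype]
      simp only [Finset.card, Finset.filter]
      simpa [eq_comm] using h1
    let e0 : ∀ c : ℤ[X], {a : Fin n // (fun v => (del A v).charpoly) a = c} ≃
        {b : Fin n // (fun v => (del B v).charpoly) b = c} :=
      fun c => Fintype.equivOfCardEq (hcount c)
    exact ⟨Equiv.ofFiberEquiv e0, fun v => Equiv.ofFiberEquiv_map e0 v⟩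
  refine ⟨σ, fun v => ?_, ?_⟩
  · rw [charpoly_del_submatrix]
    exact (hσ v).symm
  · rw [← Matrix.charpoly_reindex σ (B.submatrix σ σ)]
    congr 1
    ext i j
    simp

theorem result :
    ∀ n : ℕ, 3 ≤ n → ∀ (G H : SimpleGraph (Fin n)) [DecidableRel G.Adj] [DecidableRel H.Adj]
      (I N : Finset (Fin n)), (∀ i ∈ I, ∀ j, G.Adj i j → j ∈ N) → N.card < I.card →
      (Finset.univ : Finset (Fin n)).val.map
          (fun v => ((G.adjMatrix ℤ).submatrix
            (Subtype.val : {w : Fin n // w ≠ v} → Fin n)
            (Subtype.val : {w : Fin n // w ≠ v} → Fin n)).charpoly)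
        = (Finset.univ : Finset (Fin n)).val.map
          (fun v => ((H.adjMatrix ℤ).submatrix
            (Subtype.val : {w : Fin n // w ≠ v} → Fin n)
            (Subtype.val : {w : Fin n // w ≠ v} → Fin n)).charpoly) →
      (G.adjMatrix ℤ).charpoly = (H.adjMatrix ℤ).charpoly := by
  intro n hn G H _ _ I N hI hc h
  have hadj : ∀ (F : SimpleGraph (Fin n)) [DecidableRel F.Adj], Adj (F.adjMatrix ℤ) := by
    intro F _
    refine ⟨fun i j => ?_, fun i => ?_, fun i j => ?_⟩
    · simp [SimpleGraph.adjMatrix_apply, F.adj_comm]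
    · simp [SimpleGraph.adjMatrix_apply]
    · rw [SimpleGraph.adjMatrix_apply]
      split_ifs
      · exact Or.inr rfl
      · exact Or.inl rfl
  obtain ⟨σ, h1, h2⟩ := relabel (G.adjMatrix ℤ) (H.adjMatrix ℤ) h
  rw [← h2]
  refine hall_core _ _ (hadj G) ((hadj H).submatrix σ) (by rw [Fintype.card_fin]; exact hn) h1
    I N ?_ hc
  intro i hi j hj
  rw [SimpleGraph.adjMatrix_apply, if_neg]
  exact fun h' => hj (hI i hi j h')

end Pool.Agent.Results.MP_2696ff_co.NoFractionalMatching
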