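import Pool.Agent.Lib.MP_2696ff_co.Split

/-!
# MP_2696ff_co, Q1 for split graphs

If `G` is a split graph (a clique `K` and an independent complement) on `n ≥ 3` vertices and `H` is
any graph on `n` vertices with the same polynomial deck, then `G` and `H` have the same
characteristic polynomial.
-/

set_option autoImplicit false

namespace Pool.Agent.Results.MP_2696ff_co.SplitGraphs

open Pool.Agent.MP2696

theorem result :
    ∀ n : ℕ, 3 ≤ n → ∀ (G H : SimpleGraph (Fin n)) [DecidableRel G.Adj] [DecidableRel H.Adj]
      (K : Finset (Fin n)), G.IsClique (K : Set (Fin n)) → G.IsIndepSet ((K : Set (Fin n))ᶜ) →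
      (Finset.univ : Finset (Fin n)).val.map
          (fun v => ((G.adjMatrix ℤ).submatrix
            (Subtype.val : {w : Fin n // w ≠ v} → Fin n)
            (Subtype.val : {w : Fin n // w ≠ v} → Fin n)).charpoly)
        = (Finset.univ : Finset (Fin n)).val.map
          (fun v => ((H.adjMatrix ℤ).submatrix
            (Subtype.val : {w : Fin n // w ≠ v} → Fin n)
            (Subtype.val : {w : Fin n // w ≠ v} → Fin n)).charpoly) →
      (G.adjMatrix ℤ).charpoly = (H.adjMatrix ℤ).charpoly := by
  intro n hn G H _ _ K hK hI h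
  have hadj : ∀ (F : SimpleGraph (Fin n)) [DecidableRel F.Adj], Adj (F.adjMatrix ℤ) := by
    intro F _
    refine ⟨fun i j => ?_, fun i => ?_, fun i j => ?_⟩
    · simp [SimpleGraph.adjMatrix_apply, F.adj_comm]
    · simp [SimpleGraph.adjMatrix_apply]
    · rw [SimpleGraph.adjMatrix_apply]
      split_ifs
      · exact Or.inr rfl
      · exact Or.inl rfl
  refine main hn _ _ (hadj G) (hadj H) K ?_ ?_ h
  · intro i hi j hj hij
    rw [SimpleGraph.adjMatrix_apply, if_pos (hK hi hj hij)]
  · intro i hi j hj
    rw [SimpleGraph.adjMatrix_apply, if_neg]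
    intro hadj'
    exact hI (show i ∈ ((K : Set (Fin n))ᶜ) from hi) (show j ∈ ((K : Set (Fin n))ᶜ) from hj)
      (G.ne_of_adj hadj') hadj'

end Pool.Agent.Results.MP_2696ff_co.SplitGraphs
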